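import Mathlib

/-!
# A ZFC example of an `ω`-Lindelöf space which is not `k`-Lindelöf

The space is `X = {∞} ∪ (ℝ × ℕ)`. The points of `ℝ × ℕ` are isolated. For every countable set `C`
of reals fix an injection `e_C : C → ℕ`. The neighbourhoods of `∞` are the sets whose complement is
countable and meets every graph `{(β, e_C(β)) : β ∈ C}` in a finite set.

Neighbourhoods of `∞` are cocountable, which makes `X` an `ω`-Lindelöf space. The complements of the
columns `{β} × ℕ` form a `k`-cover, since a compact set contains only finitely many points of each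
row `ℝ × {n}`; but countably many columns, with indices in `C`, are all met by the compact set
consisting of `∞` and the graph of `e_C`.
-/

set_option autoImplicit false

namespace Pool.Agent.Results.MP_a2c218_gt.OmegaNotK

/-- An `ω`-cover of `X`: a family of open sets, not containing `X` itself, such that every finite
subset of `X` is contained in some member. -/
def IsOmegaCover (X : Type) [TopologicalSpace X] (𝓤 : Set (Set X)) : Prop :=
  (∀ U ∈ 𝓤, IsOpen U) ∧ Set.univ ∉ 𝓤 ∧ ∀ F : Set X, F.Finite → ∃ U ∈ 𝓤, F ⊆ U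

/-- A `k`-cover of `X`: a family of open sets, not containing `X` itself, such that every compact
subset of `X` is contained in some member. -/
def IsKCover (X : Type) [TopologicalSpace X] (𝓤 : Set (Set X)) : Prop :=
  (∀ U ∈ 𝓤, IsOpen U) ∧ Set.univ ∉ 𝓤 ∧ ∀ K : Set X, IsCompact K → ∃ U ∈ 𝓤, K ⊆ U

/-- `X` is `ω`-Lindelöf: every `ω`-cover contains a countable `ω`-cover. -/
def OmegaLindelof (X : Type) [TopologicalSpace X] : Prop :=
  ∀ 𝓤 : Set (Set X), IsOmegaCover X 𝓤 → ∃ 𝓥 ⊆ 𝓤, 𝓥.Countable ∧ IsOmegaCover X 𝓥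

/-- `X` is `k`-Lindelöf: every `k`-cover contains a countable `k`-cover. -/
def KLindelof (X : Type) [TopologicalSpace X] : Prop :=
  ∀ 𝓤 : Set (Set X), IsKCover X 𝓤 → ∃ 𝓥 ⊆ 𝓤, 𝓥.Countable ∧ IsKCover X 𝓥

/-! ### The ideal and the space -/

theorem exists_enum (C : Set ℝ) : ∃ e : ℝ → ℕ, C.Countable → Set.InjOn e C := by
  by_cases h : C.Countable
  · obtain ⟨e, he⟩ := Set.countable_iff_exists_injOn.1 h
    exact ⟨e, fun _ => he⟩
  · exact ⟨fun _ => 0, fun h' => absurd h' h⟩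

/-- A chosen function which is injective on the countable set `C`. -/
noncomputable def enum (C : Set ℝ) : ℝ → ℕ := (exists_enum C).choose

theorem enum_injOn {C : Set ℝ} (h : C.Countable) : Set.InjOn (enum C) C :=
  (exists_enum C).choose_spec h

/-- The ideal of the complements of the neighbourhoods of `∞`. -/
def Small (B : Set (ℝ × ℕ)) : Prop :=
  B.Countable ∧ ∀ C : Set ℝ, C.Countable → {β | β ∈ C ∧ (β, enum C β) ∈ B}.Finite

theorem small_empty : Small ∅ :=
  ⟨Set.countable_empty, fun C _ => Set.finite_empty.subset fun _ hβ => hβ.2.elim⟩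

theorem Small.mono {A B : Set (ℝ × ℕ)} (h : Small B) (hAB : A ⊆ B) : Small A :=
  ⟨h.1.mono hAB, fun C hC => (h.2 C hC).subset fun _ hβ => ⟨hβ.1, hAB hβ.2⟩⟩

theorem Small.union {A B : Set (ℝ × ℕ)} (hA : Small A) (hB : Small B) : Small (A ∪ B) := by
  refine ⟨hA.1.union hB.1, fun C hC => ((hA.2 C hC).union (hB.2 C hC)).subset ?_⟩
  rintro β ⟨h1, h2 | h2⟩
  · exact Or.inl ⟨h1, h2⟩
  · exact Or.inr ⟨h1, h2⟩

theorem small_singleton (p : ℝ × ℕ) : Small {p} := by
  refine ⟨Set.countable_singleton p, fun C _ => (Set.finite_singleton p.1).subset ?_⟩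
  rintro β ⟨_, h⟩
  have h' : (β, enum C β) = p := h
  rw [← h']
  exact rfl

theorem small_column (β : ℝ) : Small {p | p.1 = β} := by
  refine ⟨?_, fun C _ => (Set.finite_singleton β).subset fun γ hγ => hγ.2⟩
  refine (Set.countable_range fun n : ℕ => (β, n)).mono ?_
  rintro ⟨a, n⟩ h
  have h' : a = β := h
  exact ⟨n, by rw [h']⟩

theorem small_row {A : Set ℝ} (hA : A.Countable) (n : ℕ) : Small {p | p.1 ∈ A ∧ p.2 = n} := by
  refine ⟨?_, fun C hC => Set.Subsingleton.finite ?_⟩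
  · refine (hA.image fun a => (a, n)).mono ?_
    rintro ⟨a, m⟩ ⟨h1, h2⟩
    have h2' : m = n := h2
    exact ⟨a, h1, by rw [h2']⟩
  · rintro a ⟨h1, _, h2⟩ b ⟨h3, _, h4⟩
    exact enum_injOn hC h1 h3 (Eq.trans h2 (Eq.symm h4))

/-- The space `{∞} ∪ (ℝ × ℕ)`. -/
inductive Sp : Type
  | inf : Sp
  | pt : ℝ × ℕ → Sp

open Sp

/-- The set of points `p` of `ℝ × ℕ` which are not in `U`. -/
def miss (U : Set Sp) : Set (ℝ × ℕ) := {p | pt p ∉ U}

instance : TopologicalSpace Sp where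
  IsOpen U := inf ∈ U → Small (miss U)
  isOpen_univ := fun _ => small_empty.mono fun p hp => hp trivial
  isOpen_inter U V hU hV h := ((hU h.1).union (hV h.2)).mono fun p hp => by
    by_cases h' : pt p ∈ U
    · exact Or.inr fun h'' => hp ⟨h', h''⟩
    · exact Or.inl h'
  isOpen_sUnion S hS h := by
    obtain ⟨U, hU, h⟩ := h
    exact (hS U hU h).mono fun p hp hp' => hp ⟨U, hU, hp'⟩

theorem isOpen_sp {U : Set Sp} : IsOpen U ↔ (inf ∈ U → Small (miss U)) := Iff.rfl

theorem isOpen_of_notMem {U : Set Sp} (h : inf ∉ U) : IsOpen U := fun h' => absurd h' h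

theorem isOpen_compl_image {B : Set (ℝ × ℕ)} (hB : Small B) : IsOpen (pt '' B)ᶜ := by
  intro _
  refine hB.mono fun p hp => ?_
  have hp' : pt p ∈ pt '' B := not_not.1 hp
  obtain ⟨q, hq, hqp⟩ := hp'
  cases hqp
  exact hq

instance : T2Space Sp where
  t2 := by
    have key : ∀ (p : ℝ × ℕ) (y : Sp), y ≠ pt p →
        ∃ u v : Set Sp, IsOpen u ∧ IsOpen v ∧ pt p ∈ u ∧ y ∈ v ∧ Disjoint u v := by
      intro p y hy
      refine ⟨pt '' {p}, (pt '' {p})ᶜ, isOpen_of_notMem ?_, isOpen_compl_image (small_singleton p),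
        ⟨p, rfl, rfl⟩, ?_, disjoint_compl_right⟩
      · rintro ⟨q, _, hq⟩
        cases hq
      · rintro ⟨q, hq, hqy⟩
        have hq' : q = p := hq
        exact hy (by rw [← hqy, hq'])
    intro x y hxy
    rcases x with _ | p
    · rcases y with _ | q
      · exact absurd rfl hxy
      · obtain ⟨u, v, hu, hv, h1, h2, h3⟩ := key q inf hxy
        exact ⟨v, u, hv, hu, h2, h1, h3.symm⟩
    · exact key p y hxy.symm

instance : NormalSpace Sp where
  normal := by
    have key : ∀ A B : Set Sp, IsClosed A → inf ∉ A → Disjoint A B → SeparatedNhds A B := by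
      intro A B hA h hAB
      exact ⟨A, Aᶜ, isOpen_of_notMem h, hA.isOpen_compl, subset_rfl, hAB.subset_compl_left,
        disjoint_compl_right⟩
    intro A B hA hB hAB
    by_cases h : inf ∈ A
    · exact (key B A hB (Set.disjoint_left.1 hAB h) hAB.symm).symm
    · exact key A B hA h hAB

/-! ### The space is `ω`-Lindelöf -/

theorem countable_compl {U : Set Sp} (hU : IsOpen U) (h : inf ∈ U) : Uᶜ.Countable := by
  refine ((hU h).1.image pt).mono ?_
  rintro (_ | p) hp
  · exact absurd h hp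
  · exact ⟨p, hp, rfl⟩

theorem omegaLindelof : OmegaLindelof Sp := by
  rintro 𝓤 ⟨hopen, huniv, hcov⟩
  have hch : ∀ F : Set Sp, ∃ U : Set Sp, F.Finite → U ∈ 𝓤 ∧ insert inf F ⊆ U := by
    intro F
    by_cases hF : F.Finite
    · obtain ⟨U, hU, hFU⟩ := hcov _ (hF.insert inf)
      exact ⟨U, fun _ => ⟨hU, hFU⟩⟩
    · exact ⟨∅, fun h => absurd h hF⟩
  choose g hg using hch
  -- a countable set closed under `F ↦ (g F)ᶜ`
  let S : ℕ → Set Sp := fun n => Nat.rec ∅
    (fun _ T => T ∪ ⋃ F ∈ {F : Set Sp | F.Finite ∧ F ⊆ T}, (g F)ᶜ) n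
  have hS : ∀ n, S (n + 1) = S n ∪ ⋃ F ∈ {F : Set Sp | F.Finite ∧ F ⊆ S n}, (g F)ᶜ := fun _ => rfl
  have hcount : ∀ n, (S n).Countable := by
    intro n
    induction n with
    | zero => exact Set.countable_empty
    | succ n ih =>
      rw [hS]
      refine ih.union ((Set.countable_ofPred_finite_subset ih).biUnion ?_)
      intro F hF
      exact countable_compl (hopen _ (hg F hF.1).1) ((hg F hF.1).2 (Set.mem_insert _ _))
  have hmono : Monotone S := monotone_nat_of_le_succ fun n => by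
    rw [hS]; exact Set.subset_union_left
  let T : Set Sp := ⋃ n, S n
  have hT : T.Countable := Set.countable_iUnion hcount
  refine ⟨g '' {F : Set Sp | F.Finite ∧ F ⊆ T}, ?_, (Set.countable_ofPred_finite_subset hT).image g,
    ?_, ?_, ?_⟩
  · rintro _ ⟨F, hF, rfl⟩
    exact (hg F hF.1).1
  · rintro _ ⟨F, hF, rfl⟩
    exact hopen _ (hg F hF.1).1
  · rintro ⟨F, hF, h⟩
    exact huniv (h ▸ (hg F hF.1).1)
  · intro F hF
    have hF0 : (F ∩ T).Finite := hF.subset Set.inter_subset_left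
    refine ⟨g (F ∩ T), ⟨F ∩ T, ⟨hF0, Set.inter_subset_right⟩, rfl⟩, fun x hx => ?_⟩
    by_cases hxT : x ∈ T
    · exact (hg _ hF0).2 (Set.mem_insert_of_mem _ ⟨hx, hxT⟩)
    · obtain ⟨n, hn⟩ : ∃ n, F ∩ T ⊆ S n := by
        obtain ⟨I, hI, hIF⟩ := Set.finite_subset_iUnion hF0
          (show F ∩ T ⊆ ⋃ n, S n from Set.inter_subset_right)
        obtain ⟨n, hn⟩ := hI.bddAbove
        exact ⟨n, hIF.trans (Set.iUnion₂_subset fun i hi => hmono (hn hi))⟩
      by_contra hxg
      refine hxT (Set.mem_iUnion.2 ⟨n + 1, ?_⟩)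
      rw [hS]
      exact Or.inr (Set.mem_biUnion (show F ∩ T ∈ {F : Set Sp | F.Finite ∧ F ⊆ S n} from
        ⟨hF0, hn⟩) hxg)

/-! ### The space is not `k`-Lindelöf -/

theorem finite_of_small {K : Set Sp} (hK : IsCompact K) {B : Set (ℝ × ℕ)} (hB : Small B)
    (h : pt '' B ⊆ K) : B.Finite := by
  obtain ⟨t, _, ht⟩ := hK.elim_nhds_subcover
    (fun x => Sp.rec (pt '' B)ᶜ (fun p => pt '' {p}) x) (by
      rintro (_ | p) _
      · refine (isOpen_compl_image hB).mem_nhds ?_
        rintro ⟨q, _, hq⟩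
        cases hq
      · refine (isOpen_of_notMem ?_).mem_nhds ⟨p, rfl, rfl⟩
        rintro ⟨q, _, hq⟩
        cases hq)
  have hinj : Function.Injective pt := fun p q hpq => by cases hpq; rfl
  refine Set.Finite.of_finite_image (f := pt) (t.finite_toSet.subset ?_) hinj.injOn
  rintro _ ⟨p, hp, rfl⟩
  obtain ⟨x, hx, hpx⟩ := Set.mem_iUnion₂.1 (ht (h ⟨p, hp, rfl⟩))
  rcases x with _ | q
  · exact absurd ⟨p, hp, rfl⟩ hpx
  · obtain ⟨q', hq', hqp⟩ := hpx
    have hq'' : q' = q := hq'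
    rw [← hqp, hq'']
    exact hx

theorem countable_of_isCompact {K : Set Sp} (hK : IsCompact K) :
    {β : ℝ | ∃ n, pt (β, n) ∈ K}.Countable := by
  have h : {β : ℝ | ∃ n, pt (β, n) ∈ K} = ⋃ n, {β : ℝ | pt (β, n) ∈ K} := by
    ext β
    simp
  rw [h]
  refine Set.countable_iUnion fun n => Set.Finite.countable ?_
  by_contra hinf
  obtain ⟨A, hA, hAinf, hAc⟩ : ∃ A ⊆ {β : ℝ | pt (β, n) ∈ K}, A.Infinite ∧ A.Countable := by
    obtain ⟨f, hf⟩ := Set.Infinite.natEmbedding _ hinf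
    refine ⟨Set.range fun i => (f i : ℝ), ?_, ?_, Set.countable_range _⟩
    · rintro _ ⟨i, rfl⟩
      exact (f i).2
    · exact Set.infinite_range_of_injective fun i j hij => hf (Subtype.ext hij)
  have hfin := finite_of_small hK (small_row hAc n) (by
    rintro _ ⟨⟨β, m⟩, ⟨h1, h2⟩, rfl⟩
    have h2' : m = n := h2
    rw [h2']
    exact hA h1)
  refine hAinf ((hfin.image Prod.fst).subset fun β hβ => ⟨(β, n), ⟨hβ, rfl⟩, rfl⟩)

theorem isCompact_graph {C : Set ℝ} (hC : C.Countable) :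
    IsCompact (insert inf ((fun β => pt (β, enum C β)) '' C)) := by
  refine isCompact_of_finite_subcover fun {ι} U hU hcov => ?_
  obtain ⟨i, hi⟩ := Set.mem_iUnion.1 (hcov (Set.mem_insert _ _))
  have hfin : {β | β ∈ C ∧ (β, enum C β) ∈ miss (U i)}.Finite := (hU i hi).2 C hC
  have hch : ∀ β : ℝ, ∃ j : ι, β ∈ C → pt (β, enum C β) ∈ U j := by
    intro β
    by_cases hβ : β ∈ C
    · obtain ⟨j, hj⟩ := Set.mem_iUnion.1 (hcov (Set.mem_insert_of_mem _ ⟨β, hβ, rfl⟩))
      exact ⟨j, fun _ => hj⟩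
    · exact ⟨i, fun h => absurd h hβ⟩
  choose j hj using hch
  classical
  refine ⟨insert i (hfin.toFinset.image j), ?_⟩
  rintro x (rfl | ⟨β, hβ, rfl⟩)
  · exact Set.mem_biUnion (Finset.mem_coe.2 (Finset.mem_insert_self _ _)) hi
  · by_cases h : pt (β, enum C β) ∈ U i
    · exact Set.mem_biUnion (Finset.mem_coe.2 (Finset.mem_insert_self _ _)) h
    · refine Set.mem_biUnion (Finset.mem_coe.2 (Finset.mem_insert_of_mem
        (Finset.mem_image_of_mem j (hfin.mem_toFinset.2 ⟨hβ, h⟩)))) (hj β hβ)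

theorem not_kLindelof : ¬ KLindelof Sp := by
  intro hk
  let D : ℝ → Set Sp := fun β => (pt '' {p | p.1 = β})ᶜ
  have hDmem : ∀ β n, pt (β, n) ∉ D β := fun β n h => h ⟨(β, n), rfl, rfl⟩
  have hcov : IsKCover Sp (Set.range D) := by
    refine ⟨?_, ?_, ?_⟩
    · rintro _ ⟨β, rfl⟩
      exact isOpen_compl_image (small_column β)
    · rintro ⟨β, hβ⟩
      exact hDmem β 0 (hβ ▸ Set.mem_univ _)
    · intro K hK
      obtain ⟨β, hβ⟩ : ∃ β : ℝ, β ∉ {β : ℝ | ∃ n, pt (β, n) ∈ K} := by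
        by_contra hcon
        push Not at hcon
        have huniv : {β : ℝ | ∃ n, pt (β, n) ∈ K} = Set.univ := Set.eq_univ_of_forall hcon
        exact Cardinal.not_countable_real (huniv ▸ countable_of_isCompact hK)
      refine ⟨D β, ⟨β, rfl⟩, ?_⟩
      rintro x hx ⟨⟨γ, n⟩, hγ, rfl⟩
      have hγ' : γ = β := hγ
      exact hβ ⟨n, hγ' ▸ hx⟩
  obtain ⟨𝓥, hsub, hcount, _, _, hV⟩ := hk _ hcov
  have hinj : Function.Injective D := by
    intro β γ h
    by_contra hne
    have h1 : pt (β, 0) ∈ D γ := by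
      rintro ⟨⟨a, m⟩, ha, hab⟩
      have ha' : a = γ := ha
      cases hab
      exact hne ha'
    exact hDmem β 0 (h ▸ h1)
  have hC : (D ⁻¹' 𝓥).Countable := hcount.preimage_of_injOn hinj.injOn
  obtain ⟨U, hU, hKU⟩ := hV _ (isCompact_graph hC)
  obtain ⟨β, rfl⟩ := hsub hU
  exact hDmem β _ (hKU (Set.mem_insert_of_mem _ ⟨β, hU, rfl⟩))

/-- In ZFC there is an `ω`-Lindelöf Hausdorff normal space which is not `k`-Lindelöf. -/
theorem result : ∃ (X : Type) (_ : TopologicalSpace X), T4Space X ∧ OmegaLindelof X ∧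
    ¬ KLindelof X :=
  ⟨Sp, inferInstance, { }, omegaLindelof, not_kLindelof⟩

end Pool.Agent.Results.MP_a2c218_gt.OmegaNotK
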